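import Pool.Agent.helper81.CX.Spec2
import Pool.Agent.helper12.CL.FAR

/-!
# Row cx:SEL: measurable choice of a nearly farthest point
-/

set_option autoImplicit false

open MeasureTheory Set Filter Topology
open scoped ENNReal
open Pool.Agent.helper81.CW

noncomputable section

namespace Pool.Agent.CX

theorem SEL_cont {n : ℕ} {C : Set (E n)} (hC : IsCompact C) (hne : C.Nonempty) :
    Continuous (Pool.Agent.CL.far C) := by
  have h : LipschitzWith 1 (Pool.Agent.CL.far C) := by
    refine LipschitzWith.of_dist_le_mul (fun x y => ?_)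
    rw [NNReal.coe_one, one_mul, Real.dist_eq, dist_eq_norm]
    exact (Pool.Agent.CL.FAR n C hC hne x y).2.2.1
  exact h.continuous

theorem SEL : SEL_stmt := by
  classical
  intro n C z ε hC hne hz hε hhom
  have hN : Nonempty ↥C := hne.to_subtype
  let D : ℕ → E n := fun j => (TopologicalSpace.denseSeq ↥C j : E n)
  have hD : ∀ j, D j ∈ C := fun j => (TopologicalSpace.denseSeq ↥C j).2
  have hex : ∀ v : E n, ∃ j, Pool.Agent.CL.far C v - ε ≤ ‖v - D j‖ := by
    intro v
    obtain ⟨c, hc, h1⟩ := Pool.Agent.CL.FAR_att hC hne v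
    obtain ⟨j, hj⟩ := (TopologicalSpace.denseRange_denseSeq ↥C).exists_dist_lt (⟨c, hc⟩ : ↥C) hε
    refine ⟨j, ?_⟩
    have h2 : ‖c - D j‖ < ε := by
      rw [← dist_eq_norm]
      exact hj
    have h3 : ‖v - c‖ ≤ ‖v - D j‖ + ‖c - D j‖ := by
      have h4 : v - c = (v - D j) - (c - D j) := by abel
      rw [h4]
      exact norm_sub_le _ _
    linarith
  have hJ : Measurable (fun v : E n => Nat.find (hex v)) := by
    refine measurable_find hex (fun k => ?_)
    refine IsClosed.measurableSet ?_
    exact isClosed_le ((SEL_cont hC hne).sub continuous_const) (continuous_id.sub continuous_const).norm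
  refine ⟨fun x => D (Nat.find (hex (z x))), ?_, fun x => hD _, fun x r hr => ?_, fun x => Nat.find_spec (hex (z x))⟩
  · exact (measurable_from_nat (f := D)).comp (hJ.comp hz)
  · change D (Nat.find (hex (z (r • x)))) = D (Nat.find (hex (z x)))
    rw [hhom x r hr]

end Pool.Agent.CX
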